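import Pool.Agent.Y136.HR.InvE
import Pool.Agent.Y136.HR.Four

/-!
# MP_b9c098_an: products of involutions on real and complex Hilbert spaces

For every infinite-dimensional real or complex Hilbert space `H` (`𝕜 = ℝ` or `𝕜 = ℂ`):

1. The invertible bounded operators on `H` are exactly the products of five involutions.
2. A scalar `c ≠ 0` with `|c| ≠ 1` is not a product of four involutions (for complex scalars this is
   due to Gustafson, Halmos and Radjavi).
3. So five is the least number `m` such that every invertible bounded operator on `H` is a product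
   of `m` involutions.
-/

set_option autoImplicit false

namespace Pool.Agent.Results.MP_b9c098_an.RealAndComplex

open Pool.Agent.Y136.HR

universe u v

/-- **Products of involutions on real and complex Hilbert spaces.** -/
theorem result (𝕜 : Type v) [RCLike 𝕜] (H : Type u) [NormedAddCommGroup H] [InnerProductSpace 𝕜 H]
    [CompleteSpace H] (hH : ¬ FiniteDimensional 𝕜 H) :
    (∀ A : H →L[𝕜] H, IsUnit A ↔ ∃ T : Fin 5 → (H →L[𝕜] H), (∀ i, T i * T i = 1) ∧
      A = T 0 * T 1 * T 2 * T 3 * T 4) ∧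
    (∀ c : 𝕜, c ≠ 0 → ‖c‖ ≠ 1 → ¬ ∃ T : Fin 4 → (H →L[𝕜] H), (∀ i, T i * T i = 1) ∧
      c • (1 : H →L[𝕜] H) = T 0 * T 1 * T 2 * T 3) ∧
    IsLeast {m : ℕ | ∀ A : H →L[𝕜] H, IsUnit A → ∃ T : Fin m → (H →L[𝕜] H),
      (∀ i, T i * T i = 1) ∧ A = (List.ofFn T).prod} 5 := by
  have hnt : Nontrivial H := by
    by_contra h
    rw [not_nontrivial_iff_subsingleton] at h
    exact hH inferInstance
  have h5 : ∀ A : H →L[𝕜] H, IsUnit A → ∃ T : Fin 5 → (H →L[𝕜] H), (∀ i, T i * T i = 1) ∧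
      A = T 0 * T 1 * T 2 * T 3 * T 4 := by
    rintro _ ⟨u, rfl⟩
    obtain ⟨T, P, Q, P', Q', t, p, q, p', q', h⟩ := five hH u.val u.inv u.val_inv u.inv_val
    refine ⟨![T, P, Q, P', Q'], ?_, ?_⟩
    · intro i
      fin_cases i <;> simp [*]
    · exact h
  have h4 : ∀ c : 𝕜, c ≠ 0 → ‖c‖ ≠ 1 → ¬ ∃ T : Fin 4 → (H →L[𝕜] H), (∀ i, T i * T i = 1) ∧
      c • (1 : H →L[𝕜] H) = T 0 * T 1 * T 2 * T 3 := by
    rintro c hc hc1 ⟨T, hT, h⟩
    exact hc1 (norm_eq_one_of_four hc (hT 0) (hT 1) (hT 2) (hT 3) h)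
  refine ⟨fun A => ⟨h5 A, ?_⟩, h4, ?_, ?_⟩
  · rintro ⟨T, hT, rfl⟩
    have h : ∀ i, IsUnit (T i) := fun i => ⟨⟨T i, T i, hT i, hT i⟩, rfl⟩
    exact ((((h 0).mul (h 1)).mul (h 2)).mul (h 3)).mul (h 4)
  · intro A hA
    obtain ⟨T, hT, h⟩ := h5 A hA
    refine ⟨T, hT, ?_⟩
    rw [h]
    simp [List.ofFn_succ, mul_assoc]
  · intro m hm
    by_contra hlt
    rw [not_le] at hlt
    have h2 : (2 : 𝕜) ≠ 0 := two_ne_zero
    have hn : ‖(2 : 𝕜)‖ ≠ 1 := by
      rw [RCLike.norm_two]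
      norm_num
    have hu : IsUnit ((2 : 𝕜) • (1 : H →L[𝕜] H)) := by
      refine ⟨⟨(2 : 𝕜) • 1, (2 : 𝕜)⁻¹ • 1, ?_, ?_⟩, rfl⟩
      · rw [smul_mul_smul_comm, mul_inv_cancel₀ h2, one_smul, mul_one]
      · rw [smul_mul_smul_comm, inv_mul_cancel₀ h2, one_smul, mul_one]
    obtain ⟨T, hT, h⟩ := hm _ hu
    apply h4 2 h2 hn
    -- pad with identities
    let l : List (H →L[𝕜] H) := List.ofFn T ++ List.replicate (4 - m) 1
    have hl : l.length = 4 := by
      simp only [l, List.length_append, List.length_ofFn, List.length_replicate]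
      omega
    have hl2 : ∀ x ∈ l, x * x = 1 := by
      intro x hx
      simp only [l, List.mem_append, List.mem_ofFn, List.mem_replicate] at hx
      rcases hx with ⟨i, rfl⟩ | ⟨-, rfl⟩
      · exact hT i
      · exact mul_one 1
    have hl3 : l.prod = (2 : 𝕜) • 1 := by
      simp only [l, List.prod_append, List.prod_replicate, one_pow, mul_one]
      exact h.symm
    obtain ⟨a, b, c, d, hab⟩ : ∃ a b c d, l = [a, b, c, d] := by
      match l, hl with
      | [a, b, c, d], _ => exact ⟨a, b, c, d, rfl⟩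
    rw [hab] at hl2 hl3
    refine ⟨![a, b, c, d], ?_, ?_⟩
    · intro i
      fin_cases i
      · exact hl2 a (by simp)
      · exact hl2 b (by simp)
      · exact hl2 c (by simp)
      · exact hl2 d (by simp)
    · rw [← hl3]
      simp [mul_assoc]

end Pool.Agent.Results.MP_b9c098_an.RealAndComplex
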